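import Mathlib
import Pool.Agent.MP_108ce6_nt.Rat

namespace Pool.Agent.MP_108ce6_nt.Rig

section

/-! Shifted monic Chebyshev polynomials, positive functionals and exact quadrature on grids. -/

open Polynomial Finset Real

/-- The Chebyshev polynomial `2 cos (k θ)` in the variable `x = c + 2 cos θ`. -/
noncomputable def ch (c : ℝ) (k : ℤ) : ℝ[X] := (Chebyshev.C ℝ k).comp (X - C c)

/-- `L` is nonnegative on polynomials that are nonnegative on `K`. -/
def Pos (L : ℝ[X] →ₗ[ℝ] ℝ) (K : Set ℝ) : Prop :=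
  ∀ p : ℝ[X], (∀ x ∈ K, 0 ≤ p.eval x) → 0 ≤ L p

theorem Pos.one {L : ℝ[X] →ₗ[ℝ] ℝ} {K : Set ℝ} (h : Pos L K) : 0 ≤ L 1 :=
  h 1 fun _ _ => by simp

theorem Pos.sq {L : ℝ[X] →ₗ[ℝ] ℝ} {K : Set ℝ} (h : Pos L K) (p : ℝ[X]) : 0 ≤ L (p ^ 2) :=
  h _ fun _ _ => by rw [eval_pow]; positivity

theorem Pos.ge {L : ℝ[X] →ₗ[ℝ] ℝ} {K : Set ℝ} (h : Pos L K) {p : ℝ[X]} {M : ℝ}
    (hp : ∀ x ∈ K, -M ≤ p.eval x) : -(M * L 1) ≤ L p := by
  have := h (p + M • 1) fun x hx => by
    have := hp x hx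
    simp only [eval_add, eval_smul, eval_one, smul_eq_mul, mul_one]; linarith
  rw [map_add, map_smul, smul_eq_mul] at this
  linarith

theorem Pos.abs_le' {L : ℝ[X] →ₗ[ℝ] ℝ} {K : Set ℝ} (h : Pos L K) {p : ℝ[X]} {M : ℝ}
    (hp : ∀ x ∈ K, |p.eval x| ≤ M) : |L p| ≤ M * L 1 := by
  have h1 := h.ge (p := p) (M := M) fun x hx => (abs_le.1 (hp x hx)).1
  have h2 := h.ge (p := -p) (M := M) fun x hx => by
    have := (abs_le.1 (hp x hx)).2
    rw [eval_neg]; linarith
  rw [map_neg] at h2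
  exact abs_le.2 ⟨h1, by linarith⟩

theorem Pos.bnd {s : ℕ → ℝ} {K : Set ℝ} (h : Pos (mom s) K) : Bnd K s :=
  ⟨mom s 1, h.one, fun _ _ _ hp => (h.abs_le' hp).trans (mul_comm _ _).le⟩

theorem int_map {L : ℝ[X] →ₗ[ℝ] ℝ} (h : ∀ j : ℕ, ∃ z : ℤ, L (X ^ j) = z) (p : ℤ[X]) :
    ∃ z : ℤ, L (p.map (Int.castRingHom ℝ)) = z := by
  induction p using Polynomial.induction_on' with
  | add p q hp hq =>
    obtain ⟨a, ha⟩ := hp
    obtain ⟨b, hb⟩ := hq
    exact ⟨a + b, by rw [Polynomial.map_add, map_add, ha, hb, Int.cast_add]⟩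
  | monomial n a =>
    obtain ⟨z, hz⟩ := h n
    refine ⟨a * z, ?_⟩
    rw [map_monomial, ← C_mul_X_pow_eq_monomial, ← smul_eq_C_mul, map_smul, hz]
    simp

theorem ch_zero_left (k : ℤ) : ch 0 k = Chebyshev.C ℝ k := by simp [ch]

@[simp] theorem ch_zero (c : ℝ) : ch c 0 = 2 := by simp [ch]

@[simp] theorem ch_one (c : ℝ) : ch c 1 = X - C c := by simp [ch]

theorem ch_neg (c : ℝ) (k : ℤ) : ch c (-k) = ch c k := by simp [ch]

theorem ch_add_two (c : ℝ) (k : ℤ) : ch c (k + 2) = (X - C c) * ch c (k + 1) - ch c k := by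
  simp [ch, Chebyshev.C_add_two]

theorem ch_mul (c : ℝ) (j k : ℤ) : ch c j * ch c k = ch c (j + k) + ch c (j - k) := by
  simp only [ch, ← mul_comp, Chebyshev.C_mul_C, add_comp]

theorem ch_eval (c θ : ℝ) (k : ℤ) : (ch c k).eval (c + 2 * cos θ) = 2 * cos (k * θ) := by
  simp [ch, eval_comp, Chebyshev.C_two_mul_real_cos]

theorem ch_eval_cosh (c θ : ℝ) (k : ℤ) : (ch c k).eval (c + 2 * cosh θ) = 2 * cosh (k * θ) := by
  simp [ch, eval_comp, Chebyshev.C_two_mul_real_cosh]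

theorem exists_cos {c x : ℝ} (hx : x ∈ Set.Icc (c - 2) (c + 2)) :
    ∃ θ ∈ Set.Icc 0 π, x = c + 2 * cos θ := by
  refine ⟨arccos ((x - c) / 2), ⟨arccos_nonneg _, arccos_le_pi _⟩, ?_⟩
  rw [cos_arccos (by linarith [hx.1]) (by linarith [hx.2])]; ring

theorem mem_cos (c θ : ℝ) : c + 2 * cos θ ∈ Set.Icc (c - 2) (c + 2) :=
  ⟨by linarith [neg_one_le_cos θ], by linarith [cos_le_one θ]⟩

theorem abs_ch_le {c x : ℝ} (hx : x ∈ Set.Icc (c - 2) (c + 2)) (k : ℤ) :
    |(ch c k).eval x| ≤ 2 := by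
  obtain ⟨θ, -, rfl⟩ := exists_cos hx
  rw [ch_eval, abs_mul, abs_two]
  linarith [abs_cos_le_one (k * θ)]

theorem ch_monic (c : ℝ) (n : ℕ) :
    (ch c (n + 1 : ℕ)).Monic ∧ (ch c (n + 1 : ℕ)).natDegree = n + 1 := by
  induction n using Nat.twoStepInduction with
  | zero => simpa using monic_X_sub_C c
  | one =>
    have e : ch c (1 + 1 : ℕ) = (X - C c) ^ 2 - C 2 := by
      have := ch_add_two c 0
      norm_num at this ⊢
      rw [this, sq]; rfl
    have hm := (monic_X_sub_C c).pow 2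
    have hd : ((X - C c : ℝ[X]) ^ 2).natDegree = 2 := by rw [natDegree_pow, natDegree_X_sub_C]
    rw [e]
    refine ⟨hm.sub_of_left ?_, ?_⟩
    · rw [degree_eq_natDegree hm.ne_zero, hd]; exact degree_C_le.trans_lt (by norm_num)
    · rw [natDegree_sub_C, hd]
  | more n h1 h2 =>
    have e : ch c (n + 2 + 1 : ℕ) = (X - C c) * ch c (n + 1 + 1 : ℕ) - ch c (n + 1 : ℕ) := by
      have := ch_add_two c (n + 1)
      push_cast
      convert this using 2; ring_nf
    have hm := (monic_X_sub_C c).mul h2.1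
    have hd : ((X - C c) * ch c (n + 1 + 1 : ℕ)).natDegree = n + 2 + 1 := by
      rw [(monic_X_sub_C c).natDegree_mul h2.1, natDegree_X_sub_C, h2.2]; ring
    have hl : (ch c (n + 1 : ℕ)).natDegree < ((X - C c) * ch c (n + 1 + 1 : ℕ)).natDegree := by
      rw [hd, h1.2]; omega
    rw [e]
    exact ⟨hm.sub_of_left (degree_lt_degree hl), by rw [natDegree_sub_eq_left_of_natDegree_lt hl, hd]⟩

theorem natDegree_ch_le (c : ℝ) (n : ℕ) : (ch c n).natDegree ≤ n := by
  cases n with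
  | zero => simp
  | succ n => exact (ch_monic c n).2.le

theorem ch_rep (c : ℝ) (d : ℕ) : ∀ q : ℝ[X], q.natDegree ≤ d →
    ∃ β : ℕ → ℝ, q = ∑ j ∈ range (d + 1), β j • ch c j := by
  induction d with
  | zero =>
    intro q hq
    refine ⟨fun _ => q.coeff 0 / 2, ?_⟩
    rw [eq_C_of_natDegree_le_zero hq]
    simp only [zero_add, range_one, sum_singleton, coeff_C_zero, Nat.cast_zero, ch_zero]
    rw [smul_eq_C_mul, show (2 : ℝ[X]) = C 2 from rfl, ← C_mul]; simp
  | succ d ih =>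
    intro q hq
    obtain ⟨hm, hd⟩ := ch_monic c d
    obtain ⟨β, hβ⟩ := ih (q - q.coeff (d + 1) • ch c (d + 1 : ℕ)) (by
      refine natDegree_le_iff_coeff_eq_zero.2 fun N hN => ?_
      rw [coeff_sub, coeff_smul, smul_eq_mul]
      rcases (Nat.succ_le_of_lt hN).eq_or_lt with h | h
      · have : (ch c (d + 1 : ℕ)).coeff (d + 1) = 1 := by
          have := hm.coeff_natDegree; rwa [hd] at this
        rw [← h, this]; ring
      · rw [coeff_eq_zero_of_natDegree_lt (hq.trans_lt h),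
          coeff_eq_zero_of_natDegree_lt (hd.le.trans_lt h)]; ring)
    refine ⟨fun j => if j = d + 1 then q.coeff (d + 1) else β j, ?_⟩
    simp only [sum_range_succ (n := d + 1), if_true]
    rw [← sub_eq_iff_eq_add, hβ]
    exact sum_congr rfl fun j hj => by rw [if_neg (by have := mem_range.1 hj; omega)]

theorem orth (θ₀ : ℝ) (M : ℕ) (k : ℤ) (hk : |k| < M) :
    ∑ l ∈ range M, cos (k * (θ₀ + 2 * π * l / M)) = if k = 0 then (M : ℝ) else 0 := by
  split_ifs with h
  · simp [h]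
  have hM : (0 : ℝ) < M := by exact_mod_cast (abs_nonneg k).trans_lt hk
  have hs : sin (π * k / M) ≠ 0 := fun h0 => by
    obtain ⟨n, hn⟩ := sin_eq_zero_iff.1 h0
    have h1 : (n : ℝ) * M = k := by
      field_simp at hn; linarith
    have h2 : n * M = k := by exact_mod_cast h1
    have h3 : n ≠ 0 := by rintro rfl; simp at h2; exact h h2.symm
    have h4 : |k| = |n| * M := by rw [← h2, abs_mul]; simp
    have h5 : 1 ≤ |n| := Int.one_le_abs h3
    have h6 : (0 : ℤ) ≤ M := by positivity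
    nlinarith
  refine mul_left_cancel₀ (mul_ne_zero two_ne_zero hs) ?_
  have key : ∀ l : ℕ, 2 * sin (π * k / M) * cos (k * (θ₀ + 2 * π * l / M)) =
      sin (k * θ₀ + π * k * (2 * ((l + 1 : ℕ) : ℝ) - 1) / M) -
        sin (k * θ₀ + π * k * (2 * (l : ℝ) - 1) / M) := fun l => by
    rw [sin_sub_sin]
    congr 2
    · congr 1; push_cast; field_simp; ring
    · push_cast; field_simp; ring
  rw [mul_sum, sum_congr rfl fun l _ => key l,
    sum_range_sub fun l : ℕ => sin (k * θ₀ + π * k * (2 * (l : ℝ) - 1) / M), mul_zero, sub_eq_zero]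
  have : k * θ₀ + π * k * (2 * (M : ℝ) - 1) / M =
      (k * θ₀ + π * k * (2 * ((0 : ℕ) : ℝ) - 1) / M) + k * (2 * π) := by
    push_cast; field_simp; ring
  rw [this, sin_add_int_mul_two_pi]

theorem quad {ι : Type*} (S : Finset ι) (k : ι → ℤ) (τ : ι → ℝ) (c θ₀ : ℝ) (M : ℕ) (j : ℤ)
    (h : ∀ i ∈ S, |k i| + |j| < M) :
    ∑ l ∈ range M, (ch c j).eval (c + 2 * cos (θ₀ + 2 * π * l / M)) *
        ∑ i ∈ S, τ i * cos (k i * (θ₀ + 2 * π * l / M)) =
      M * (∑ i ∈ S with k i = j, τ i + ∑ i ∈ S with k i = -j, τ i) := by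
  simp only [ch_eval, mul_sum, sum_filter, ← sum_add_distrib]
  rw [sum_comm]
  refine sum_congr rfl fun i hi => ?_
  have h1 := orth θ₀ M (k i - j) ((abs_sub _ _).trans_lt (h i hi))
  have h2 := orth θ₀ M (k i + j) ((abs_add_le _ _).trans_lt (h i hi))
  have e : ∀ t : ℝ, 2 * cos (j * t) * (τ i * cos (k i * t)) =
      τ i * cos (((k i - j : ℤ) : ℝ) * t) + τ i * cos (((k i + j : ℤ) : ℝ) * t) := fun t => by
    push_cast
    rw [sub_mul, add_mul, cos_sub, cos_add]; ring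
  simp only [e, sum_add_distrib, ← mul_sum, h1, h2, sub_eq_zero, add_eq_zero_iff_eq_neg]
  split_ifs <;> ring

end

section

/-! An interval of length four with a gap carries small monic polynomials. -/

open Polynomial Finset Real

theorem small_int (j : ℕ) : ∫ θ in (0 : ℝ)..π, cos (((j + 1 : ℕ) : ℤ) * θ) = 0 := by
  have h : (((j + 1 : ℕ) : ℤ) : ℝ) ≠ 0 := by positivity
  rw [intervalIntegral.integral_comp_mul_left (fun x => cos x) h, integral_cos, mul_zero,
    sin_zero, sin_int_mul_pi]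
  simp

theorem small_v (c α β : ℝ) (hαβ : α < β) (hα : c - 2 ≤ α) (hβ : β ≤ c + 2) :
    ∃ (N : ℕ) (a : ℕ → ℝ), ∀ θ, c + 2 * cos θ ∉ Set.Ioo α β →
      ∑ j ∈ range N, a j * cos ((j + 1 : ℕ) * θ) ≤ -1 := by
  set f : ℝ → ℝ := fun x => max 0 ((x - α) * (β - x)) with hf
  have hfc : Continuous f := by fun_prop
  obtain ⟨θ0, h0, e0⟩ := exists_cos (c := c) (x := (α + β) / 2) ⟨by linarith, by linarith⟩
  have hm : 0 < ∫ θ in (0 : ℝ)..π, f (c + 2 * cos θ) := by
    refine intervalIntegral.integral_pos pi_pos (by fun_prop) (fun x _ => le_max_left _ _)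
      ⟨θ0, h0, ?_⟩
    rw [← e0]
    exact lt_max_of_lt_right (mul_pos (by linarith) (by linarith))
  set m := ∫ θ in (0 : ℝ)..π, f (c + 2 * cos θ) with hmd
  have hδ : 0 < m / (3 * π) := by positivity
  obtain ⟨v, hv⟩ := exists_polynomial_near_of_continuousOn (c - 2) (c + 2) f hfc.continuousOn _ hδ
  obtain ⟨b, hb⟩ := ch_rep c _ v le_rfl
  have hev : ∀ θ, v.eval (c + 2 * cos θ) =
      ∑ j ∈ range v.natDegree, b (j + 1) * (2 * cos (((j + 1 : ℕ) : ℤ) * θ)) + 2 * b 0 := by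
    intro θ
    conv_lhs => rw [hb]
    rw [eval_finsetSum, sum_range_succ']
    simp only [eval_smul, smul_eq_mul, ch_eval]
    simp [mul_comm]
  have hI : ∫ θ in (0 : ℝ)..π, v.eval (c + 2 * cos θ) = 2 * π * b 0 := by
    simp only [hev]
    rw [intervalIntegral.integral_add (Continuous.intervalIntegrable (by fun_prop) _ _)
      (Continuous.intervalIntegrable (by fun_prop) _ _), intervalIntegral.integral_finsetSum
      fun j _ => Continuous.intervalIntegrable (by fun_prop) _ _]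
    simp only [intervalIntegral.integral_const_mul, small_int]
    simp; ring
  have hle : ∫ θ in (0 : ℝ)..π, (f (c + 2 * cos θ) - m / (3 * π)) ≤
      ∫ θ in (0 : ℝ)..π, v.eval (c + 2 * cos θ) :=
    intervalIntegral.integral_mono_on pi_pos.le (Continuous.intervalIntegrable (by fun_prop) _ _)
      (Continuous.intervalIntegrable (by fun_prop) _ _) fun θ _ => by
        linarith [(abs_lt.1 (hv _ (mem_cos c θ))).1]
  rw [hI, intervalIntegral.integral_sub (Continuous.intervalIntegrable (by fun_prop) _ _)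
    (Continuous.intervalIntegrable (by fun_prop) _ _), ← hmd, intervalIntegral.integral_const,
    sub_zero, smul_eq_mul] at hle
  have hb0 : m / (3 * π) ≤ b 0 := by
    have e : m = 3 * π * (m / (3 * π)) := by field_simp
    have := pi_pos
    nlinarith
  have hb1 : 0 < b 0 := hδ.trans_le hb0
  refine ⟨v.natDegree, fun j => 2 * b (j + 1) / b 0, fun θ hθ => ?_⟩
  have h1 := (abs_lt.1 (hv _ (mem_cos c θ))).2
  have h2 : f (c + 2 * cos θ) = 0 := by
    refine max_eq_left ?_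
    rw [Set.mem_Ioo, not_and_or, not_lt, not_lt] at hθ
    rcases hθ with h | h
    · exact mul_nonpos_of_nonpos_of_nonneg (by linarith) (by linarith)
    · exact mul_nonpos_of_nonneg_of_nonpos (by linarith) (by linarith)
  rw [h2, hev] at h1
  have e : ∑ j ∈ range v.natDegree, 2 * b (j + 1) / b 0 * cos ((j + 1 : ℕ) * θ) =
      (∑ j ∈ range v.natDegree, b (j + 1) * (2 * cos (((j + 1 : ℕ) : ℤ) * θ))) / b 0 := by
    rw [sum_div]
    refine sum_congr rfl fun j _ => ?_
    rw [Int.cast_natCast]; ring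
  rw [e, div_le_iff₀ hb1]
  linarith

theorem small_re (t : ℝ) (a : ℝ) (j : ℕ) (s : ℝ) :
    (Complex.exp (s * Complex.I) * (a • Complex.exp (t * Complex.I) ^ j)).re =
      a * cos (s + j * t) := by
  rw [← Complex.exp_nat_mul, mul_smul_comm, ← Complex.exp_add, Complex.smul_re, smul_eq_mul,
    show s * Complex.I + j * (t * Complex.I) = ((s + j * t : ℝ) : ℂ) * Complex.I by
      push_cast; ring, Complex.exp_ofReal_mul_I_re]

theorem small_monic (c : ℝ) (E : ℝ[X]) (hE : E.coeff 0 = 1) :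
    ∃ p : ℝ[X], p.Monic ∧ 0 < p.natDegree ∧ ∀ θ : ℝ,
      |p.eval (c + 2 * cos θ)| ≤ 2 * ‖aeval (Complex.exp (θ * Complex.I)) E‖ := by
  set d := E.natDegree
  obtain ⟨hm, hd⟩ := ch_monic c d
  set q : ℝ[X] := ∑ j ∈ range d, E.coeff (j + 1) • ch c (d - j : ℕ) with hq
  have hqd : q.natDegree < (ch c (d + 1 : ℕ)).natDegree := by
    rw [hd]
    refine Nat.lt_succ_of_le (natDegree_sum_le_of_forall_le _ _ fun j _ => ?_)
    exact (natDegree_smul_le _ _).trans ((natDegree_ch_le c _).trans (Nat.sub_le _ _))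
  refine ⟨ch c (d + 1 : ℕ) + q, hm.add_of_left (degree_lt_degree hqd), ?_, fun θ => ?_⟩
  · rw [natDegree_add_eq_left_of_natDegree_lt hqd, hd]; omega
  have e : (ch c (d + 1 : ℕ) + q).eval (c + 2 * cos θ) =
      2 * (Complex.exp ((-((d + 1 : ℕ) * θ) : ℝ) * Complex.I) *
        aeval (Complex.exp (θ * Complex.I)) E).re := by
    rw [aeval_eq_sum_range, mul_sum, Complex.re_sum]
    simp only [small_re]
    rw [sum_range_succ', hE, eval_add, hq, eval_finsetSum, mul_add, mul_sum, add_comm]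
    simp only [eval_smul, smul_eq_mul, ch_eval]
    congr 1
    · refine sum_congr rfl fun j hj => ?_
      have hj' : j ≤ d := (mem_range.1 hj).le
      rw [← cos_neg, Int.cast_natCast, Nat.cast_sub hj']
      push_cast
      ring_nf
    · rw [← cos_neg]; simp
  rw [e, abs_mul, abs_two]
  refine mul_le_mul_of_nonneg_left ((Complex.abs_re_le_norm _).trans ?_) zero_le_two
  rw [norm_mul, Complex.norm_exp_ofReal_mul_I, one_mul]

theorem small_gap (c α β : ℝ) (hαβ : α < β) (hα : c - 2 ≤ α) (hβ : β ≤ c + 2) :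
    ∃ p : ℝ[X], p.Monic ∧ 0 < p.natDegree ∧
      ∀ x ∈ Set.Icc (c - 2) (c + 2) \ Set.Ioo α β, |p.eval x| ≤ 1 / 2 := by
  obtain ⟨N, a, ha⟩ := small_v c α β hαβ hα hβ
  set A := ∑ j ∈ range N, |a j|
  set T := A ^ 2 + 2 with hT
  have hT0 : 0 < T := by positivity
  set D : ℝ[X] := 1 + T⁻¹ • ∑ j ∈ range N, a j • X ^ (j + 1) with hD
  have hr : √(1 - T⁻¹) < 1 := by
    rw [sqrt_lt' one_pos]
    have := inv_pos.2 hT0
    linarith
  have hDz : ∀ θ, c + 2 * cos θ ∉ Set.Ioo α β →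
      ‖aeval (Complex.exp (θ * Complex.I)) D‖ ≤ √(1 - T⁻¹) := by
    intro θ hθ
    set u := ∑ j ∈ range N, a j • Complex.exp (θ * Complex.I) ^ (j + 1) with hu
    have e : aeval (Complex.exp (θ * Complex.I)) D = 1 + T⁻¹ • u := by
      simp only [hD, hu, map_add, map_one, map_smul, map_sum, map_pow, aeval_X]
    have h1 : u.re ≤ -1 := by
      refine le_of_eq_of_le ?_ (ha θ hθ)
      rw [hu, Complex.re_sum]
      refine sum_congr rfl fun j _ => ?_
      have := small_re θ (a j) (j + 1) 0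
      simpa only [Complex.ofReal_zero, zero_mul, Complex.exp_zero, one_mul, zero_add] using this
    have h2 : ‖u‖ ≤ A := (norm_sum_le _ _).trans (le_of_eq (sum_congr rfl fun j _ => by
      rw [norm_smul, norm_pow, Complex.norm_exp_ofReal_mul_I, one_pow, mul_one, norm_eq_abs]))
    have h3 : u.re * u.re + u.im * u.im ≤ T := by
      rw [← Complex.normSq_apply, Complex.normSq_eq_norm_sq]
      nlinarith [norm_nonneg u]
    rw [e]
    refine le_sqrt_of_sq_le ?_
    rw [← Complex.normSq_eq_norm_sq, Complex.normSq_apply]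
    simp only [Complex.add_re, Complex.add_im, Complex.one_re, Complex.one_im, Complex.smul_re,
      Complex.smul_im, smul_eq_mul, zero_add]
    have h4 : 0 < T⁻¹ := inv_pos.2 hT0
    have h5 : T⁻¹ * T = 1 := inv_mul_cancel₀ hT0.ne'
    have h6 : T⁻¹ * (u.re * u.re + u.im * u.im) ≤ 1 := by nlinarith
    nlinarith
  obtain ⟨k, hk⟩ := exists_pow_lt_of_lt_one (by norm_num : (0 : ℝ) < 1 / 4) hr
  obtain ⟨p, hp, hp0, hpe⟩ := small_monic c (D ^ k) (by
    rw [coeff_zero_eq_eval_zero, eval_pow, hD]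
    simp [eval_finsetSum])
  refine ⟨p, hp, hp0, fun x hx => ?_⟩
  obtain ⟨θ, -, rfl⟩ := exists_cos hx.1
  have h1 := hpe θ
  rw [map_pow, norm_pow] at h1
  have h2 := pow_le_pow_left₀ (norm_nonneg _) (hDz θ hx.2) k
  linarith

end

end Pool.Agent.MP_108ce6_nt.Rig
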